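import Pool.Agent.X232.GR.Ideal

set_option autoImplicit false

/-! Reduced Groebner bases of kernels of monomial maps. -/

namespace X232.GR

noncomputable section

open MvPolynomial
open scoped MonomialOrder

variable {σ : Type} {k : Type*} [Field k]

/-- `G` is the reduced Groebner basis of `I` for the monomial order `m`. -/
structure IsReducedGB (m : MonomialOrder.{0, 0} σ) (I : Ideal (MvPolynomial σ k))
    (G : Set (MvPolynomial σ k)) : Prop where
  mem : ∀ g ∈ G, g ∈ I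
  lead : ∀ f ∈ I, f ≠ 0 → ∃ g ∈ G, m.degree g ≤ m.degree f
  monic : ∀ g ∈ G, m.Monic g
  reduced : ∀ g ∈ G, ∀ h ∈ G, h ≠ g → ∀ u ∈ g.support, ¬ m.degree h ≤ u

/-- the universal Groebner basis -/
def universalGB (I : Ideal (MvPolynomial σ k)) : Set (MvPolynomial σ k) :=
  {g | ∃ (m : MonomialOrder.{0, 0} σ) (G : Set (MvPolynomial σ k)), IsReducedGB m I G ∧ g ∈ G}

variable {H : Type*} [AddCommMonoid H] (A : (σ →₀ ℕ) →+ H) (m : MonomialOrder.{0, 0} σ)

/-- `v` is the smallest element of its fiber -/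
def IsMin' (v : σ →₀ ℕ) : Prop := ∀ r, A r = A v → (v ≼[m] r)

/-- the pairs giving the reduced Groebner basis -/
def Good (u v : σ →₀ ℕ) : Prop :=
  A u = A v ∧ IsMin' A m v ∧ u ≠ v ∧ ∀ u', u' ≤ u → u' ≠ u → IsMin' A m u'

theorem exists_min (u : σ →₀ ℕ) : ∃ v, A u = A v ∧ IsMin' A m v := by
  obtain ⟨s, ⟨v, hv, rfl⟩, hs⟩ := (wellFounded_lt (α := m.syn)).has_min
    {s | ∃ v, A v = A u ∧ m.toSyn v = s} ⟨m.toSyn u, u, rfl, rfl⟩
  refine ⟨v, hv.symm, fun r hr => ?_⟩
  exact not_lt.1 (hs (m.toSyn r) ⟨r, hr.trans hv, rfl⟩)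

variable {A m}

theorem IsMin'.eq {u v : σ →₀ ℕ} (hu : IsMin' A m u) (hv : IsMin' A m v) (h : A u = A v) : u = v :=
  m.toSyn.injective (le_antisymm (hu v h.symm) (hv u h))

theorem lt_of_good {u v : σ →₀ ℕ} (h : A u = A v) (hv : IsMin' A m v) (hne : u ≠ v) :
    v ≺[m] u :=
  lt_of_le_of_ne (hv u h) fun e => hne (m.toSyn.injective e).symm

theorem IsMin'.of_le {u u' : σ →₀ ℕ} (hu : IsMin' A m u) (h : u' ≤ u) : IsMin' A m u' := by
  intro r hr
  obtain ⟨c, rfl⟩ := exists_add_of_le h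
  have h2 := hu (r + c) (by rw [map_add, map_add, hr])
  rw [map_add, map_add] at h2
  exact le_of_add_le_add_right h2

theorem Good.not_min {u v : σ →₀ ℕ} (h : Good A m u v) : ¬ IsMin' A m u := fun hu =>
  h.2.2.1 (hu.eq h.2.1 h.1)

theorem degree_bin {u v : σ →₀ ℕ} (h : v ≺[m] u) : m.degree (bin k u v) = u := by
  classical
  unfold bin
  rw [sub_eq_add_neg, m.degree_add_of_lt]
  · rw [m.degree_monomial, if_neg one_ne_zero]
  · rw [m.degree_neg, m.degree_monomial, m.degree_monomial, if_neg one_ne_zero,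
      if_neg one_ne_zero]
    exact h

theorem monic_bin {u v : σ →₀ ℕ} (h : v ≺[m] u) : m.Monic (bin k u v) := by
  classical
  have hne : v ≠ u := by
    rintro rfl
    exact lt_irrefl _ h
  unfold MonomialOrder.Monic MonomialOrder.leadingCoeff
  rw [degree_bin h, coeff_bin, if_pos rfl, if_neg hne, sub_zero]

theorem not_min_degree {f : MvPolynomial σ k} (hf : f ∈ IA k A) (h0 : f ≠ 0) :
    ¬ IsMin' A m (m.degree f) := by
  intro hmin
  obtain ⟨v, hv, hne, hA⟩ := exists_other A hf (m.degree_mem_support h0)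
  exact hne (m.toSyn.injective (le_antisymm (m.le_degree hv) (hmin v hA)))

theorem exists_good {u : σ →₀ ℕ} (hu : ¬ IsMin' A m u) : ∃ p q, p ≤ u ∧ Good A m p q := by
  obtain ⟨s, ⟨p, ⟨hp, hpm⟩, rfl⟩, hs⟩ := (wellFounded_lt (α := m.syn)).has_min
    {s | ∃ v, (v ≤ u ∧ ¬ IsMin' A m v) ∧ m.toSyn v = s} ⟨m.toSyn u, u, ⟨le_rfl, hu⟩, rfl⟩
  obtain ⟨q, hq, hqm⟩ := exists_min A m p
  refine ⟨p, q, hp, hq, hqm, ?_, ?_⟩
  · rintro rfl
    exact hpm hqm
  · intro u' hu' hne
    by_contra hcon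
    refine hs (m.toSyn u') ⟨u', ⟨hu'.trans hp, hcon⟩, rfl⟩ ?_
    exact m.toSyn_strictMono (lt_of_le_of_ne hu' hne)

theorem isReducedGB_good : IsReducedGB m (IA k A) {g | ∃ u v, Good A m u v ∧ g = bin k u v} where
  mem := by
    rintro _ ⟨u, v, h, rfl⟩
    exact (bin_mem_IA A).2 h.1
  lead := by
    intro f hf h0
    obtain ⟨p, q, hp, hg⟩ := exists_good (not_min_degree (m := m) hf h0)
    refine ⟨_, ⟨p, q, hg, rfl⟩, ?_⟩
    rw [degree_bin (lt_of_good hg.1 hg.2.1 hg.2.2.1)]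
    exact hp
  monic := by
    rintro _ ⟨u, v, h, rfl⟩
    exact monic_bin (lt_of_good h.1 h.2.1 h.2.2.1)
  reduced := by
    classical
    rintro _ ⟨u, v, h, rfl⟩ _ ⟨u', v', h', rfl⟩ hne w hw
    rw [degree_bin (lt_of_good h'.1 h'.2.1 h'.2.2.1)]
    intro hle
    have hw' : w = u ∨ w = v := by
      by_contra hcon
      rw [not_or] at hcon
      rw [mem_support_iff, coeff_bin, if_neg (Ne.symm hcon.1), if_neg (Ne.symm hcon.2)] at hw
      simp at hw
    rcases hw' with rfl | rfl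
    · by_cases he : u' = w
      · subst he
        apply hne
        rw [h'.2.1.eq h.2.1 (h'.1.symm.trans h.1)]
      · exact h'.not_min (h.2.2.2 u' hle he)
    · exact h'.not_min (h.2.1.of_le hle)

theorem good_of_mem {G : Set (MvPolynomial σ k)} (hG : IsReducedGB m (IA k A) G)
    {g : MvPolynomial σ k} (hg : g ∈ G) : ∃ u v, Good A m u v ∧ g = bin k u v := by
  classical
  have hg0 : g ≠ 0 := (hG.monic g hg).ne_zero
  have hgI := hG.mem g hg
  set u := m.degree g with hu
  have husupp : u ∈ g.support := m.degree_mem_support hg0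
  have hum : ¬ IsMin' A m u := not_min_degree hgI hg0
  obtain ⟨v, hv, hvm⟩ := exists_min A m u
  have huv : u ≠ v := fun e => hum (e ▸ hvm)
  have hmon : coeff u g = 1 := (hG.monic g hg).coeff_degree
  have hgb : g = bin k u v := by
    by_contra hne
    have hf0 : g - bin k u v ≠ 0 := sub_ne_zero.2 hne
    have hfI : g - bin k u v ∈ IA k A := (IA k A).sub_mem hgI ((bin_mem_IA A).2 hv)
    set w := m.degree (g - bin k u v) with hw
    have hws : w ∈ (g - bin k u v).support := m.degree_mem_support hf0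
    have hwm : ¬ IsMin' A m w := not_min_degree hfI hf0
    have hwu : w ≠ u := by
      intro e
      rw [e, mem_support_iff, coeff_sub, coeff_bin, if_pos rfl, if_neg (Ne.symm huv), hmon] at hws
      simp at hws
    have hwv : w ≠ v := fun e => hwm (e ▸ hvm)
    have hwg : w ∈ g.support := by
      rw [mem_support_iff, coeff_sub, coeff_bin, if_neg (Ne.symm hwu), if_neg (Ne.symm hwv)] at hws
      rw [mem_support_iff]
      simpa using hws
    obtain ⟨h, hh, hle⟩ := hG.lead _ hfI hf0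
    by_cases he : h = g
    · subst he
      exact hwu (m.toSyn.injective (le_antisymm (m.le_degree hwg) (m.toSyn_monotone hle)))
    · exact hG.reduced g hg h hh he w hwg hle
  refine ⟨u, v, ⟨hv, hvm, huv, ?_⟩, hgb⟩
  intro u' hle hne
  by_contra hcon
  obtain ⟨v', hv', hvm'⟩ := exists_min A m u'
  have hne' : u' ≠ v' := fun e => hcon (e ▸ hvm')
  obtain ⟨h, hh, hle'⟩ := hG.lead (bin k u' v') ((bin_mem_IA A).2 hv') (bin_ne_zero hne')
  rw [degree_bin (lt_of_good hv' hvm' hne')] at hle'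
  by_cases he : h = g
  · subst he
    exact hne (le_antisymm hle hle')
  · exact hG.reduced g hg h hh he u husupp (hle'.trans hle)

variable (A) in
theorem universalGB_eq : universalGB (IA k A) =
    {g | ∃ u v, (∃ m : MonomialOrder.{0, 0} σ, Good A m u v) ∧ g = bin k u v} := by
  ext g
  constructor
  · rintro ⟨m, G, hG, hg⟩
    obtain ⟨u, v, h, rfl⟩ := good_of_mem hG hg
    exact ⟨u, v, ⟨m, h⟩, rfl⟩
  · rintro ⟨u, v, ⟨m, h⟩, rfl⟩
    exact ⟨m, _, isReducedGB_good (m := m), u, v, h, rfl⟩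

end

end X232.GR
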