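import Pool.Agent.X232.GR.Ord

set_option autoImplicit false

/-! Kernels of monomial maps. -/

namespace X232.GR

noncomputable section

open MvPolynomial

variable {σ : Type} {k : Type*} [Field k]

/-- pure difference binomial -/
def bin (k : Type*) [Field k] (u v : σ →₀ ℕ) : MvPolynomial σ k := monomial u 1 - monomial v 1

theorem bin_self (u : σ →₀ ℕ) : bin k u u = 0 := sub_self _

theorem coeff_bin [DecidableEq σ] (u v w : σ →₀ ℕ) : coeff w (bin k u v) =
    (if u = w then 1 else 0) - (if v = w then 1 else 0) := by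
  unfold bin
  rw [coeff_sub, coeff_monomial, coeff_monomial]

theorem bin_ne_zero {u v : σ →₀ ℕ} (h : u ≠ v) : bin k u v ≠ 0 := by
  classical
  intro h0
  have := congrArg (coeff u) h0
  rw [coeff_bin, if_pos rfl, if_neg (Ne.symm h), sub_zero, coeff_zero] at this
  exact one_ne_zero this

theorem bin_inj {u v p q : σ →₀ ℕ} (h : u ≠ v) (hb : bin k u v = bin k p q) :
    (u = p ∧ v = q) ∨ (u = q ∧ v = p ∧ (2 : k) = 0) := by
  classical
  have hpq : p ≠ q := by
    rintro rfl
    rw [bin_self] at hb
    exact bin_ne_zero h hb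
  have c : ∀ w, coeff w (bin k u v) = coeff w (bin k p q) := fun w => by rw [hb]
  simp only [coeff_bin] at c
  have c1 := c u
  have c2 := c v
  rw [if_pos rfl, if_neg (Ne.symm h)] at c1
  rw [if_pos rfl, if_neg h] at c2
  by_cases h1 : p = u
  · refine Or.inl ⟨h1.symm, ?_⟩
    subst h1
    by_contra h2
    rw [if_neg h, if_neg (fun e => h2 e.symm)] at c2
    simp at c2
  · rw [if_neg h1] at c1
    by_cases h3 : q = u
    · subst h3
      rw [if_pos rfl] at c1
      have e1 : (2 : k) = 0 := by linear_combination c1
      refine Or.inr ⟨rfl, ?_, e1⟩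
      by_contra h4
      rw [if_neg (fun e => h4 e.symm), if_neg h] at c2
      simp at c2
    · rw [if_neg h3] at c1
      simp at c1

theorem bin_comm_of_two (h : (2 : k) = 0) (u v : σ →₀ ℕ) : bin k u v = bin k v u := by
  have h1 : (C (2 : k) : MvPolynomial σ k) = 0 := by rw [h, C_0]
  have h2 : (2 : MvPolynomial σ k) = 0 := by
    rw [← h1]
    exact (map_ofNat (C : k →+* MvPolynomial σ k) 2).symm
  unfold bin
  linear_combination (monomial u (1 : k) - monomial v (1 : k)) * h2

variable {H : Type*} [AddCommMonoid H] (A : (σ →₀ ℕ) →+ H)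

/-- the monomial map -/
def phi (k : Type*) [Field k] (A : (σ →₀ ℕ) →+ H) : MvPolynomial σ k →ₐ[k] AddMonoidAlgebra k H :=
  MvPolynomial.aeval (fun i => AddMonoidAlgebra.single (A (Finsupp.single i 1)) (1 : k))

theorem phi_monomial_one (u : σ →₀ ℕ) :
    phi k A (monomial u 1) = AddMonoidAlgebra.single (A u) (1 : k) := by
  induction u using Finsupp.induction_linear with
  | zero =>
    rw [map_zero]
    exact map_one _
  | add f g hf hg =>
    have : (monomial (f + g) (1 : k) : MvPolynomial σ k) = monomial f 1 * monomial g 1 := by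
      rw [monomial_mul, one_mul]
    rw [this, map_mul, hf, hg, AddMonoidAlgebra.single_mul_single, map_add, one_mul]
  | single i n =>
    have h1 : (monomial (Finsupp.single i n) (1 : k) : MvPolynomial σ k) = X i ^ n := by
      rw [X_pow_eq_monomial]
    have h2 : phi k A (X i) = AddMonoidAlgebra.single (A (Finsupp.single i 1)) (1 : k) := by
      unfold phi
      rw [aeval_X]
    rw [h1, map_pow, h2, AddMonoidAlgebra.single_pow, one_pow, ← map_nsmul]
    congr 2
    simp

theorem phi_monomial (u : σ →₀ ℕ) (c : k) :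
    phi k A (monomial u c) = AddMonoidAlgebra.single (A u) c := by
  have : (monomial u c : MvPolynomial σ k) = c • monomial u 1 := by
    rw [smul_monomial, smul_eq_mul, mul_one]
  rw [this, map_smul, phi_monomial_one, AddMonoidAlgebra.smul_single, smul_eq_mul, mul_one]

/-- the kernel -/
def IA (k : Type*) [Field k] (A : (σ →₀ ℕ) →+ H) : Ideal (MvPolynomial σ k) := RingHom.ker (phi k A)

theorem mem_IA {f : MvPolynomial σ k} : f ∈ IA k A ↔ phi k A f = 0 := Iff.rfl

theorem bin_mem_IA {u v : σ →₀ ℕ} : bin k u v ∈ IA k A ↔ A u = A v := by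
  classical
  rw [mem_IA]
  unfold bin
  rw [map_sub, phi_monomial, phi_monomial, sub_eq_zero]
  constructor
  · intro h
    by_contra hne
    have := congrArg (fun x => x.coeff (A u)) h
    simp only [AddMonoidAlgebra.coeff_single] at this
    rw [Finsupp.single_eq_same, Finsupp.single_eq_of_ne hne] at this
    exact one_ne_zero this
  · intro h
    rw [h]

theorem coeff_phi [DecidableEq H] (f : MvPolynomial σ k) (h : H) : (phi k A f).coeff h =
    ∑ u ∈ f.support, if A u = h then coeff u f else 0 := by
  conv_lhs => rw [f.as_sum]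
  rw [map_sum, AddMonoidAlgebra.coeff_sum, Finsupp.finsetSum_apply]
  refine Finset.sum_congr rfl fun u _ => ?_
  rw [phi_monomial, AddMonoidAlgebra.coeff_single, Finsupp.single_apply]

theorem exists_other {f : MvPolynomial σ k} (hf : f ∈ IA k A) {u : σ →₀ ℕ} (hu : u ∈ f.support) :
    ∃ v ∈ f.support, v ≠ u ∧ A v = A u := by
  classical
  by_contra hcon
  push Not at hcon
  have h := coeff_phi A f (A u)
  rw [(mem_IA A).1 hf, Finset.sum_eq_single u] at h
  · rw [if_pos rfl] at h
    exact (mem_support_iff.1 hu) (by simpa using h.symm)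
  · intro b hb hbu
    rw [if_neg (hcon b hb hbu)]
  · intro h'
    exact absurd hu h'

/-- the ideal is spanned by binomials -/
theorem mem_span_of_mem_IA : ∀ (n : ℕ) (f : MvPolynomial σ k), f.support.card = n → f ∈ IA k A →
    ∀ J : Ideal (MvPolynomial σ k), (∀ u v, A u = A v → bin k u v ∈ J) → f ∈ J := by
  classical
  intro n
  induction n using Nat.strong_induction_on with
  | _ n ih =>
    intro f hn hf J hJ
    by_cases h0 : f = 0
    · rw [h0]; exact J.zero_mem
    obtain ⟨u, hu⟩ : f.support.Nonempty := by
      rwa [Finset.nonempty_iff_ne_empty, Ne, support_eq_empty]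
    obtain ⟨v, hv, hvu, hA⟩ := exists_other A hf hu
    set g := f - C (coeff u f) * bin k u v with hg
    have hgI : g ∈ IA k A :=
      (IA k A).sub_mem hf ((IA k A).mul_mem_left _ ((bin_mem_IA A).2 hA.symm))
    have hcu : coeff u g = 0 := by
      rw [hg, coeff_sub, coeff_C_mul, coeff_bin, if_pos rfl, if_neg hvu]
      ring
    have hsub : g.support ⊆ f.support.erase u := by
      intro w hw
      rw [Finset.mem_erase]
      have hwu : w ≠ u := by
        rintro rfl
        exact (mem_support_iff.1 hw) hcu
      refine ⟨hwu, ?_⟩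
      by_cases hwv : w = v
      · rw [hwv]; exact hv
      · rw [mem_support_iff] at hw ⊢
        rw [hg, coeff_sub, coeff_C_mul, coeff_bin, if_neg (Ne.symm hwu), if_neg (Ne.symm hwv)] at hw
        simpa using hw
    have hcard : g.support.card < n := by
      have := Finset.card_le_card hsub
      rw [Finset.card_erase_of_mem hu] at this
      have h2 := Finset.card_pos.2 ⟨u, hu⟩
      omega
    have hgJ := ih _ hcard g rfl hgI J hJ
    have : f = g + C (coeff u f) * bin k u v := by rw [hg]; ring
    rw [this]
    exact J.add_mem hgJ (J.mul_mem_left _ (hJ _ _ hA.symm))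

theorem IA_le {J : Ideal (MvPolynomial σ k)} (hJ : ∀ u v, A u = A v → bin k u v ∈ J) :
    IA k A ≤ J := fun f hf => mem_span_of_mem_IA A _ f rfl hf J hJ

/-- binomials in the ideal spanned by binomials -/
def binCon (J : Ideal (MvPolynomial σ k)) : AddCon (σ →₀ ℕ) where
  r u v := bin k u v ∈ J
  iseqv :=
    { refl := fun u => by rw [bin_self]; exact J.zero_mem
      symm := fun {u v} h => by
        have : bin k v u = - bin k u v := by unfold bin; ring
        rw [this]; exact J.neg_mem h
      trans := fun {u v w} h h' => by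
        have : bin k u w = bin k u v + bin k v w := by unfold bin; ring
        rw [this]; exact J.add_mem h h' }
  add' := fun {u v p q} h h' => by
    show bin k (u + p) (v + q) ∈ J
    have h1 : ∀ a b : σ →₀ ℕ, (monomial (a + b) (1 : k) : MvPolynomial σ k) =
        monomial a 1 * monomial b 1 := fun a b => by rw [monomial_mul, one_mul]
    have : bin k (u + p) (v + q) = monomial p 1 * bin k u v + monomial v 1 * bin k p q := by
      unfold bin
      rw [h1, h1]; ring
    rw [this]
    exact J.add_mem (J.mul_mem_left _ h) (J.mul_mem_left _ h')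

theorem bin_mem_span_iff (T : (σ →₀ ℕ) → (σ →₀ ℕ) → Prop) (u v : σ →₀ ℕ) :
    bin k u v ∈ Ideal.span {b : MvPolynomial σ k | ∃ p q, T p q ∧ b = bin k p q} ↔
      addConGen T u v := by
  set J := Ideal.span {b : MvPolynomial σ k | ∃ p q, T p q ∧ b = bin k p q} with hJ
  constructor
  · intro h
    set c := addConGen T with hc
    have hle : J ≤ IA k c.mk' := by
      rw [hJ, Ideal.span_le]
      rintro _ ⟨p, q, hT, rfl⟩
      rw [SetLike.mem_coe, bin_mem_IA]
      exact (AddCon.eq c).2 (AddConGen.Rel.of _ _ hT)
    exact (AddCon.eq c).1 ((bin_mem_IA _).1 (hle h))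
  · intro h
    have hle : addConGen T ≤ binCon J := AddCon.addConGen_le.2 fun p q hT =>
      Ideal.subset_span ⟨p, q, hT, rfl⟩
    exact hle h

end

end X232.GR
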