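import Pool.Agent.X232.GR.Markov

set_option autoImplicit false

/-! Generalized robustness is inherited by elimination ideals. -/

namespace X232.GR

noncomputable section

open MvPolynomial
open scoped MonomialOrder

variable {σ : Type} {k : Type*} [Field k] {H : Type*} [AddCommGroup H] {A : (σ →₀ ℕ) →+ H}
  {W : (σ →₀ ℕ) →+ ℕ} {S : Set σ}

theorem emb_single (i : S) : emb S (Finsupp.single i 1) = Finsupp.single (i : σ) 1 :=
  Finsupp.mapDomain_single

theorem IsWeight.emb (hW : IsWeight A W) : IsWeight (A.comp (emb S)) (W.comp (emb S)) where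
  pos i := by
    show 0 < W (X232.GR.emb S (Finsupp.single i 1))
    rw [emb_single]
    exact hW.pos i
  fib u v h := hW.fib _ _ h

theorem Conn.emb {u v : S →₀ ℕ} (h : Conn (A.comp (emb S)) u v) :
    Conn A (X232.GR.emb S u) (X232.GR.emb S v) := by
  induction h with
  | rel u v h =>
    obtain ⟨hA, i, h1, h2⟩ := h
    refine Relation.EqvGen.rel _ _ ⟨hA, i, ?_, ?_⟩
    · rwa [emb_apply]
    · rwa [emb_apply]
  | refl u => exact Conn.refl _
  | symm _ _ _ ih => exact ih.symm
  | trans _ _ _ _ _ ih ih' => exact ih.trans ih'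

theorem Good.restr {m : MonomialOrder.{0, 0} σ} {u v : S →₀ ℕ}
    (h : Good A m (emb S u) (emb S v)) : Good (A.comp (emb S)) (X232.GR.restr S m) u v := by
  refine ⟨h.1, fun r hr => h.2.1 _ hr, fun e => h.2.2.1 (by rw [e]), fun u' hu' hne r hr => ?_⟩
  exact h.2.2.2 (emb S u') (emb_mono hu') (fun e => hne (emb_injective e)) _ hr

theorem Good.elim {mS : MonomialOrder.{0, 0} S} {m : MonomialOrder.{0, 0} σ}
    (h1 : ∀ u v : S →₀ ℕ, (emb S u ≼[m] emb S v) ↔ (u ≼[mS] v))
    (h2 : ∀ (u : S →₀ ℕ) (v : σ →₀ ℕ), ¬ (∀ i, i ∉ S → v i = 0) → (emb S u ≺[m] v))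
    {u v : S →₀ ℕ} (h : Good (A.comp (emb S)) mS u v) : Good A m (emb S u) (emb S v) := by
  have hmin : ∀ w : S →₀ ℕ, IsMin' (A.comp (emb S)) mS w → IsMin' A m (emb S w) := by
    intro w hw r hr
    by_cases hs : ∀ i, i ∉ S → r i = 0
    · rw [← emb_res hs, h1]
      refine hw _ ?_
      show A (emb S (res S r)) = A (emb S w)
      rw [emb_res hs, hr]
    · exact (h2 w r hs).le
  refine ⟨h.1, hmin _ h.2.1, fun e => h.2.2.1 (emb_injective e), fun u' hu' hne => ?_⟩
  have hs : ∀ i, i ∉ S → u' i = 0 := by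
    intro i hi
    have := hu' i
    rw [emb_apply_not_mem u hi] at this
    omega
  rw [← emb_res hs]
  refine hmin _ (h.2.2.2 _ ?_ ?_)
  · have := res_mono (S := S) hu'
    rwa [res_emb] at this
  · intro e
    apply hne
    rw [← emb_res hs, e]

/-- the point where the hypothesis is used for the first time -/
theorem not_conn_of_good [Finite σ] (hW : IsWeight A W)
    (h : universalGB (IA k A) = universalMarkov (IA k A)) {mS : MonomialOrder.{0, 0} S}
    {u v : S →₀ ℕ} (hg : Good (A.comp (emb S)) mS u v) : ¬ Conn A (emb S u) (emb S v) := by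
  obtain ⟨m, h1, h2⟩ := exists_elim S mS
  have hg' := hg.elim h1 h2
  have hmem : bin k (emb S u) (emb S v) ∈ universalGB (IA k A) := by
    rw [universalGB_eq]
    exact ⟨_, _, ⟨m, hg'⟩, rfl⟩
  rw [h, universalMarkov_eq hW] at hmem
  obtain ⟨p, q, ⟨_, hpq⟩, he⟩ := hmem
  rcases bin_inj hg'.2.2.1 he with ⟨e1, e2⟩ | ⟨e1, e2, _⟩
  · rwa [e1, e2]
  · rw [e1, e2]
    exact fun hc => hpq hc.symm

theorem not_conn_emb [Finite σ] (hW : IsWeight A W)
    (h : universalGB (IA k A) = universalMarkov (IA k A))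
    {u v : S →₀ ℕ} (hA : A (emb S u) = A (emb S v)) (hn : ¬ Conn (A.comp (emb S)) u v) :
    ¬ Conn A (emb S u) (emb S v) := by
  have hWS : IsWeight (A.comp (emb S)) (W.comp (emb S)) := hW.emb
  set B := A.comp (emb S) with hB
  obtain ⟨mS, hmS⟩ := exists_small ({i | ∃ r, Conn B r v ∧ r i ≠ 0} : Set S)
  have hv : ∀ i, i ∉ ({i | ∃ r, Conn B r v ∧ r i ≠ 0} : Set S) → v i = 0 := by
    intro i hi
    by_contra hcon
    exact hi ⟨v, Conn.refl v, hcon⟩
  obtain ⟨v0, hv0, hv0m⟩ := exists_min B mS v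
  have hv0c : Conn B v0 v := by
    by_contra hcon
    refine absurd (hv0m v hv0) (not_le.2 (hmS v v0 hv ?_))
    intro hsupp
    by_cases hz : v0 = 0
    · subst hz
      have : v = 0 := hWS.eq_zero_of hv0
      rw [this] at hcon
      exact hcon (Conn.refl _)
    · obtain ⟨i, hi⟩ := DFunLike.ne_iff.1 hz
      have hi' : v0 i ≠ 0 := hi
      have : i ∈ ({i | ∃ r, Conn B r v ∧ r i ≠ 0} : Set S) := by
        by_contra hi2
        exact hi' (hsupp i hi2)
      obtain ⟨r, hr, hri⟩ := this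
      apply hcon
      have hstep : Conn B v0 r := Relation.EqvGen.rel _ _ ⟨hv0.symm.trans hr.eq.symm, i, hi', hri⟩
      exact hstep.trans hr
  obtain ⟨s, ⟨u0, hu0, rfl⟩, hs⟩ := (wellFounded_lt (α := mS.syn)).has_min
    {s | ∃ r, Conn B r u ∧ mS.toSyn r = s} ⟨mS.toSyn u, u, Conn.refl u, rfl⟩
  have hAuv : B u = B v := hA
  have hgood : Good B mS u0 v0 := by
    refine ⟨(hu0.eq.trans hAuv).trans hv0, hv0m, ?_, ?_⟩
    · intro e
      apply hn
      rw [e] at hu0
      exact hu0.symm.trans hv0c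
    · intro u' hu' hne r hr
      by_contra hlt
      rw [not_le] at hlt
      obtain ⟨c, rfl⟩ := exists_add_of_le hu'
      have hc : c ≠ 0 := by
        rintro rfl
        exact hne (add_zero _).symm
      obtain ⟨i, hi⟩ := DFunLike.ne_iff.1 hc
      have hi' : c i ≠ 0 := hi
      have hstep : Conn B (r + c) (u' + c) := by
        refine Relation.EqvGen.rel _ _ ⟨by rw [map_add, map_add, hr], i, ?_, ?_⟩
        · rw [Finsupp.add_apply]; omega
        · rw [Finsupp.add_apply]; omega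
      refine hs (mS.toSyn (r + c)) ⟨r + c, hstep.trans hu0, rfl⟩ ?_
      rw [map_add, map_add]
      exact add_lt_add_left hlt _
  have key := not_conn_of_good (k := k) hW h hgood
  intro hc
  apply key
  exact (hu0.emb.trans hc).trans hv0c.emb.symm

theorem generalized_robust_elim [Finite σ] (hW : IsWeight A W)
    (h : universalGB (IA k A) = universalMarkov (IA k A)) (S : Set σ) :
    universalGB (IA k (A.comp (emb S))) = universalMarkov (IA k (A.comp (emb S))) := by
  rw [universalMarkov_eq hW.emb, universalGB_eq]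
  ext g
  constructor
  · rintro ⟨u, v, ⟨mS, hg⟩, rfl⟩
    refine ⟨u, v, ⟨hg.1, fun hc => ?_⟩, rfl⟩
    exact not_conn_of_good (k := k) hW h hg hc.emb
  · rintro ⟨u, v, ⟨hA, hn⟩, rfl⟩
    have hn' := not_conn_emb (k := k) hW h hA hn
    have hmem : bin k (emb S u) (emb S v) ∈ universalMarkov (IA k A) := by
      rw [universalMarkov_eq hW]
      exact ⟨_, _, ⟨hA, hn'⟩, rfl⟩
    have huv : emb S u ≠ emb S v := fun e => hn' (e ▸ Conn.refl _)
    rw [← h, universalGB_eq] at hmem
    obtain ⟨p, q, ⟨m, hg⟩, he⟩ := hmem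
    rcases bin_inj huv he with ⟨rfl, rfl⟩ | ⟨rfl, rfl, h2⟩
    · exact ⟨u, v, ⟨_, hg.restr⟩, rfl⟩
    · exact ⟨v, u, ⟨_, hg.restr⟩, bin_comm_of_two h2 u v⟩

end

end X232.GR
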