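import Pool.Agent.X232.GR.Groeb

set_option autoImplicit false

/-! Minimal binomial generating sets of kernels of monomial maps. -/

namespace X232.GR

noncomputable section

open MvPolynomial
open scoped MonomialOrder

variable {σ : Type} {k : Type*} [Field k]

/-- minimal generating set consisting of binomials -/
structure IsMinBinGen (I : Ideal (MvPolynomial σ k)) (S : Set (MvPolynomial σ k)) : Prop where
  binom : ∀ g ∈ S, ∃ u v : σ →₀ ℕ, g = monomial u 1 - monomial v 1
  span : Ideal.span S = I
  minimal : ∀ T ⊆ S, Ideal.span T = I → T = S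

/-- the universal Markov basis -/
def universalMarkov (I : Ideal (MvPolynomial σ k)) : Set (MvPolynomial σ k) :=
  {g | ∃ S : Set (MvPolynomial σ k), IsMinBinGen I S ∧ g ∈ S}

variable {H : Type*} [AddCommGroup H] (A : (σ →₀ ℕ) →+ H)

/-- same fiber and a common variable -/
def Step (r s : σ →₀ ℕ) : Prop := A r = A s ∧ ∃ i, r i ≠ 0 ∧ s i ≠ 0

/-- connected in the graph of a fiber -/
def Conn : (σ →₀ ℕ) → (σ →₀ ℕ) → Prop := Relation.EqvGen (Step A)

variable {A}

theorem Conn.symm {r s : σ →₀ ℕ} (h : Conn A r s) : Conn A s r := Relation.EqvGen.symm _ _ h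
theorem Conn.refl (r : σ →₀ ℕ) : Conn A r r := Relation.EqvGen.refl _
theorem Conn.trans {r s t : σ →₀ ℕ} (h : Conn A r s) (h' : Conn A s t) : Conn A r t :=
  Relation.EqvGen.trans _ _ _ h h'

theorem Conn.eq {r s : σ →₀ ℕ} (h : Conn A r s) : A r = A s := by
  induction h with
  | rel _ _ h => exact h.1
  | refl _ => rfl
  | symm _ _ _ ih => exact ih.symm
  | trans _ _ _ _ _ ih ih' => exact ih.trans ih'

theorem sub_single {r : σ →₀ ℕ} {i : σ} (h : r i ≠ 0) : ∃ r', r = r' + Finsupp.single i 1 := by
  classical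
  refine ⟨r - Finsupp.single i 1, ?_⟩
  ext j
  rw [Finsupp.add_apply, Finsupp.tsub_apply]
  by_cases hj : i = j
  · subst hj
    rw [Finsupp.single_eq_same]
    omega
  · rw [Finsupp.single_apply, if_neg hj]
    omega

theorem Step.sub {r s : σ →₀ ℕ} (h : Step A r s) : ∃ i r' s', r = r' + Finsupp.single i 1 ∧
    s = s' + Finsupp.single i 1 ∧ A r' = A s' := by
  obtain ⟨hA, i, hr, hs⟩ := h
  obtain ⟨r', rfl⟩ := sub_single hr
  obtain ⟨s', rfl⟩ := sub_single hs
  refine ⟨i, r', s', rfl, rfl, ?_⟩
  rw [map_add, map_add] at hA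
  exact add_right_cancel hA

/-- a positive weight which is constant on the fibers -/
structure IsWeight (A : (σ →₀ ℕ) →+ H) (W : (σ →₀ ℕ) →+ ℕ) : Prop where
  pos : ∀ i, 0 < W (Finsupp.single i 1)
  fib : ∀ u v, A u = A v → W u = W v

variable {W : (σ →₀ ℕ) →+ ℕ}

theorem IsWeight.eq_zero (hW : IsWeight A W) {u : σ →₀ ℕ} (h : W u = 0) : u = 0 := by
  by_contra hne
  obtain ⟨i, hi⟩ := DFunLike.ne_iff.1 hne
  obtain ⟨u', rfl⟩ := sub_single (show u i ≠ 0 from hi)
  rw [map_add] at h
  have := hW.pos i
  omega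

theorem IsWeight.eq_zero_of (hW : IsWeight A W) {u : σ →₀ ℕ} (h : A u = A 0) : u = 0 := by
  refine hW.eq_zero ?_
  rw [hW.fib _ _ h, map_zero]

theorem IsWeight.lt (hW : IsWeight A W) (i : σ) (r : σ →₀ ℕ) : W r < W (r + Finsupp.single i 1) := by
  rw [map_add]
  have := hW.pos i
  omega

/-- sets of binomials from relations -/
def bins (k : Type*) [Field k] (T : (σ →₀ ℕ) → (σ →₀ ℕ) → Prop) : Set (MvPolynomial σ k) :=
  {b | ∃ p q, T p q ∧ b = bin k p q}

theorem eq_of_span {T : (σ →₀ ℕ) → (σ →₀ ℕ) → Prop} (h : Ideal.span (bins k T) = IA k A)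
    (u v : σ →₀ ℕ) : addConGen T u v ↔ A u = A v := by
  rw [← bin_mem_IA (k := k) A, ← h]
  exact (bin_mem_span_iff T u v).symm

/-- the relation used for the lower degree part -/
def lowCon (c : AddCon (σ →₀ ℕ)) (W : (σ →₀ ℕ) →+ ℕ) (N : ℕ) : AddCon (σ →₀ ℕ) where
  r u v := W u = W v ∧ (W u < N → c u v)
  iseqv :=
    { refl := fun u => ⟨rfl, fun _ => c.refl u⟩
      symm := fun {u v} h => ⟨h.1.symm, fun h' => c.symm (h.2 (h.1 ▸ h'))⟩
      trans := fun {u v w} h h' => ⟨h.1.trans h'.1, fun h2 =>
        c.trans (h.2 h2) (h'.2 (h.1 ▸ h2))⟩ }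
  add' := fun {u v p q} h h' => by
    refine ⟨by rw [map_add, map_add, h.1, h'.1], fun h2 => ?_⟩
    rw [map_add] at h2
    exact c.add (h.2 (by omega)) (h'.2 (by omega))

theorem not_conn_of_mem {S : Set (MvPolynomial σ k)} (hW : IsWeight A W)
    (hS : IsMinBinGen (IA k A) S) {u v : σ →₀ ℕ} (hb : bin k u v ∈ S) :
    A u = A v ∧ ¬ Conn A u v := by
  have hI : bin k u v ∈ IA k A := by
    rw [← hS.span]
    exact Ideal.subset_span hb
  have hA : A u = A v := (bin_mem_IA A).1 hI
  refine ⟨hA, fun hconn => ?_⟩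
  -- it suffices that the binomial is in the span of the others
  suffices hsuff : bin k u v ∈ Ideal.span (S \ {bin k u v}) by
    have h1 : Ideal.span (S \ {bin k u v}) = IA k A := by
      refine le_antisymm ?_ ?_
      · rw [← hS.span]
        exact Ideal.span_mono Set.sdiff_subset
      · rw [← hS.span, Ideal.span_le]
        intro g hg
        by_cases he : g = bin k u v
        · rw [he]; exact hsuff
        · exact Ideal.subset_span ⟨hg, he⟩
    have h2 := hS.minimal _ Set.sdiff_subset h1
    rw [← h2] at hb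
    exact hb.2 rfl
  by_cases huv : u = v
  · subst huv
    rw [bin_self]; exact Ideal.zero_mem _
  set T : (σ →₀ ℕ) → (σ →₀ ℕ) → Prop := fun p q => bin k p q ∈ S with hT
  set T' : (σ →₀ ℕ) → (σ →₀ ℕ) → Prop := fun p q => T p q ∧ bin k p q ≠ bin k u v with hT'
  have hST : S = bins k T := by
    ext g
    constructor
    · intro hg
      obtain ⟨p, q, rfl⟩ := hS.binom g hg
      exact ⟨p, q, hg, rfl⟩
    · rintro ⟨p, q, hpq, rfl⟩
      exact hpq
  have hST' : bins k T' ⊆ S \ {bin k u v} := by
    rintro _ ⟨p, q, ⟨h1, h2⟩, rfl⟩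
    exact ⟨h1, h2⟩
  refine Ideal.span_mono hST' ?_
  refine (bin_mem_span_iff T' u v).2 ?_
  have hspan : Ideal.span (bins k T) = IA k A := by rw [← hST]; exact hS.span
  have hlow : addConGen T ≤ lowCon (addConGen T') W (W u) := by
    refine AddCon.addConGen_le.2 fun p q hpq => ?_
    have hApq : A p = A q := (eq_of_span hspan p q).1 (AddConGen.Rel.of _ _ hpq)
    refine ⟨hW.fib _ _ hApq, fun hlt => AddConGen.Rel.of _ _ ⟨hpq, fun he => ?_⟩⟩
    rcases bin_inj huv he.symm with h | h
    · rw [← h.1] at hlt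
      exact lt_irrefl _ hlt
    · rw [← h.2.1, ← hW.fib _ _ hA] at hlt
      exact lt_irrefl _ hlt
  have hconn' : ∀ r s, Conn A r s → A r = A u → addConGen T' r s := by
    intro r s h
    induction h with
    | rel r s h =>
      intro hr
      obtain ⟨i, r', s', rfl, rfl, hA'⟩ := h.sub
      have h1 := hlow ((eq_of_span hspan r' s').2 hA')
      have h2 := h1.2 (by rw [← hW.fib _ _ hr]; exact hW.lt i r')
      exact (addConGen T').add h2 ((addConGen T').refl _)
    | refl r => intro _; exact (addConGen T').refl r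
    | symm r s h ih => intro hs; exact (addConGen T').symm (ih ((Conn.eq h).trans hs))
    | trans r s t h h' ih ih' =>
      intro hr
      exact (addConGen T').trans (ih hr) (ih' ((Conn.eq h).symm.trans hr))
  exact hconn' u v hconn rfl

/-! ### construction of a minimal generating set -/

/-- the relation separating one component -/
def sepCon (hW : IsWeight A W) (t : σ →₀ ℕ) : AddCon (σ →₀ ℕ) where
  r u v := A u = A v ∧ (A u = A t → (Conn A u t ↔ Conn A v t))
  iseqv :=
    { refl := fun u => ⟨rfl, fun _ => Iff.rfl⟩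
      symm := fun {u v} h => ⟨h.1.symm, fun h' => (h.2 (h.1.trans h')).symm⟩
      trans := fun {u v w} h h' => ⟨h.1.trans h'.1, fun h2 =>
        (h.2 h2).trans (h'.2 (h.1.symm.trans h2))⟩ }
  add' := fun {u v p q} h h' => by
    have hA : A (u + p) = A (v + q) := by rw [map_add, map_add, h.1, h'.1]
    refine ⟨hA, fun ht => ?_⟩
    by_cases hp : p = 0
    · subst hp
      have hq : q = 0 := hW.eq_zero_of h'.1.symm
      subst hq
      rw [add_zero, add_zero]
      rw [add_zero] at ht
      exact h.2 ht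
    by_cases hv : v = 0
    · subst hv
      have hu : u = 0 := hW.eq_zero_of h.1
      subst hu
      rw [zero_add, zero_add]
      rw [zero_add] at ht
      exact h'.2 ht
    have c1 : Conn A (u + p) (v + p) := by
      obtain ⟨i, hi⟩ := DFunLike.ne_iff.1 hp
      have hi' : p i ≠ 0 := hi
      refine Relation.EqvGen.rel _ _ ⟨by rw [map_add, map_add, h.1], i, ?_, ?_⟩
      · rw [Finsupp.add_apply]; omega
      · rw [Finsupp.add_apply]; omega
    have c2 : Conn A (v + p) (v + q) := by
      obtain ⟨i, hi⟩ := DFunLike.ne_iff.1 hv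
      have hi' : v i ≠ 0 := hi
      refine Relation.EqvGen.rel _ _ ⟨by rw [map_add, map_add, h'.1], i, ?_, ?_⟩
      · rw [Finsupp.add_apply]; omega
      · rw [Finsupp.add_apply]; omega
    have c := c1.trans c2
    exact ⟨fun h3 => c.symm.trans h3, fun h3 => c.trans h3⟩

variable (A) in
theorem exists_rep {u v : σ →₀ ℕ} (hn : ¬ Conn A u v) : ∃ rep : (σ →₀ ℕ) → (σ →₀ ℕ),
    (∀ r, Conn A (rep r) r) ∧ (∀ r s, Conn A r s → rep r = rep s) ∧ rep u = u ∧ rep v = v := by
  classical
  let st : Setoid (σ →₀ ℕ) := ⟨Conn A, Conn.refl, Conn.symm, Conn.trans⟩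
  refine ⟨fun r => if Conn A r u then u else if Conn A r v then v else
    Quotient.out (Quotient.mk st r), ?_, ?_, ?_, ?_⟩
  · intro r
    dsimp only
    split_ifs with h1 h2
    · exact h1.symm
    · exact h2.symm
    · exact Quotient.exact (Quotient.out_eq (Quotient.mk st r))
  · intro r s h
    have e1 : Conn A r u ↔ Conn A s u := ⟨fun h' => h.symm.trans h', fun h' => h.trans h'⟩
    have e2 : Conn A r v ↔ Conn A s v := ⟨fun h' => h.symm.trans h', fun h' => h.trans h'⟩
    have e3 : Quotient.mk st r = Quotient.mk st s := Quotient.sound h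
    dsimp only
    simp only [e1, e2, e3]
  · dsimp only
    rw [if_pos (Conn.refl u)]
  · dsimp only
    rw [if_neg (fun h => hn h.symm), if_pos (Conn.refl v)]

theorem mem_markov {u v : σ →₀ ℕ} (hW : IsWeight A W) (hA : A u = A v) (hn : ¬ Conn A u v) :
    ∃ S : Set (MvPolynomial σ k), IsMinBinGen (IA k A) S ∧ bin k u v ∈ S := by
  classical
  obtain ⟨rep, hrep1, hrep2, hru, hrv⟩ := exists_rep A hn
  have hrr : ∀ r, rep (rep r) = rep r := fun r => hrep2 _ _ (hrep1 r)
  have hAr : ∀ r, A (rep r) = A r := fun r => (hrep1 r).eq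
  obtain ⟨cen, hc1, hc2, hc3, hc4⟩ : ∃ cen : (σ →₀ ℕ) → (σ →₀ ℕ),
      (∀ r, A (cen r) = A r) ∧ (∀ r s, A r = A s → cen r = cen s) ∧ (∀ r, rep (cen r) = cen r) ∧
      cen u = u := by
    refine ⟨fun r => if A r = A u then u else rep (Function.invFun A (A r)), ?_, ?_, ?_, ?_⟩
    · intro r
      dsimp only
      split_ifs with h
      · exact h.symm
      · rw [hAr]
        exact Function.invFun_eq ⟨r, rfl⟩
    · intro r s h
      dsimp only
      rw [h]
    · intro r
      dsimp only
      split_ifs with h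
      · exact hru
      · exact hrr _
    · dsimp only
      rw [if_pos rfl]
  set T : (σ →₀ ℕ) → (σ →₀ ℕ) → Prop := fun p q => p = cen q ∧ rep q = q ∧ q ≠ cen q with hT
  have hTA : ∀ p q, T p q → A p = A q := by
    rintro p q ⟨rfl, _, _⟩
    exact hc1 q
  -- the congruence generated by T
  have hgen : ∀ (n : ℕ) (r s : σ →₀ ℕ), W r = n → A r = A s → addConGen T r s := by
    intro n
    induction n using Nat.strong_induction_on with
    | _ n ih =>
      intro r s hn hrs
      have hconn : ∀ r s, Conn A r s → W r = n → addConGen T r s := by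
        intro r s h
        induction h with
        | rel r s h =>
          intro hr
          obtain ⟨i, r', s', rfl, rfl, hA'⟩ := h.sub
          have h1 := ih (W r') (by rw [← hr]; exact hW.lt i r') r' s' rfl hA'
          exact (addConGen T).add h1 ((addConGen T).refl _)
        | refl r => intro _; exact (addConGen T).refl r
        | symm r s h ih' =>
          intro hs
          exact (addConGen T).symm (ih' ((hW.fib _ _ (Conn.eq h)).trans hs))
        | trans r s t h h' ih1 ih2 =>
          intro hr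
          exact (addConGen T).trans (ih1 hr) (ih2 ((hW.fib _ _ (Conn.eq h)).symm.trans hr))
      have hto : ∀ r, W r = n → addConGen T (cen r) r := by
        intro r hr
        have h1 : addConGen T (rep r) r := by
          refine (addConGen T).symm (hconn r (rep r) (hrep1 r).symm hr)
        have h2 : addConGen T (cen (rep r)) (rep r) := by
          by_cases h3 : rep r = cen (rep r)
          · rw [← h3]
            exact (addConGen T).refl _
          · exact AddConGen.Rel.of _ _ ⟨rfl, hrr r, h3⟩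
        rw [hc2 _ _ (hAr r)] at h2
        exact (addConGen T).trans h2 h1
      have h1 := hto r hn
      have h2 := hto s (by rw [← hW.fib _ _ hrs]; exact hn)
      rw [← hc2 _ _ hrs] at h2
      exact (addConGen T).trans ((addConGen T).symm h1) h2
  have hspan : Ideal.span (bins k T) = IA k A := by
    refine le_antisymm ?_ ?_
    · rw [Ideal.span_le]
      rintro _ ⟨p, q, hpq, rfl⟩
      exact (bin_mem_IA A).2 (hTA p q hpq)
    · refine IA_le A fun r s hrs => ?_
      exact (bin_mem_span_iff T r s).2 (hgen _ r s rfl hrs)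
  refine ⟨bins k T, ⟨?_, hspan, ?_⟩, u, v, ⟨?_, hrv, ?_⟩, rfl⟩
  · rintro _ ⟨p, q, _, rfl⟩
    exact ⟨p, q, rfl⟩
  · intro T0 hT0 hsp
    refine Set.Subset.antisymm hT0 ?_
    rintro _ ⟨c, t, hct, rfl⟩
    by_contra hnot
    set T'' : (σ →₀ ℕ) → (σ →₀ ℕ) → Prop := fun p q => T p q ∧ bin k p q ≠ bin k c t with hT''
    have hsub : T0 ⊆ bins k T'' := by
      intro g hg
      obtain ⟨p, q, hpq, rfl⟩ := hT0 hg
      refine ⟨p, q, ⟨hpq, fun he => hnot ?_⟩, rfl⟩
      rw [← he]; exact hg
    have hmem : bin k c t ∈ Ideal.span (bins k T'') := by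
      refine Ideal.span_mono hsub ?_
      rw [hsp]
      exact (bin_mem_IA A).2 (hTA c t hct)
    have hcon := (bin_mem_span_iff T'' c t).1 hmem
    have hle : addConGen T'' ≤ sepCon hW t := by
      refine AddCon.addConGen_le.2 fun p q hpq => ?_
      obtain ⟨⟨hp1, hp2, hp3⟩, hne⟩ := hpq
      have hApq : A p = A q := by rw [hp1]; exact hc1 q
      refine ⟨hApq, fun hpt => ?_⟩
      have hcq : cen q = cen t := hc2 _ _ (hApq.symm.trans hpt)
      have hqt : q ≠ t := by
        rintro rfl
        apply hne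
        rw [hp1, hct.1]
      constructor
      · intro h
        exfalso
        have e1 : rep p = rep t := hrep2 _ _ h
        rw [hp1, hc3, hct.2.1, hcq] at e1
        exact hct.2.2 e1.symm
      · intro h
        exfalso
        have e1 : rep q = rep t := hrep2 _ _ h
        rw [hp2, hct.2.1] at e1
        exact hqt e1
    have hfin := (hle hcon).2 (hTA c t hct)
    have e1 : Conn A c t := hfin.2 (Conn.refl t)
    have e2 : rep c = rep t := hrep2 _ _ e1
    rw [hct.1, hc3, hct.2.1] at e2
    exact hct.2.2 e2.symm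
  · rw [← hc2 _ _ hA]
    exact hc4.symm
  · intro h
    apply hn
    rw [← hc2 _ _ hA, hc4] at h
    rw [h]
    exact Conn.refl _

theorem universalMarkov_eq (hW : IsWeight A W) : universalMarkov (IA k A) =
    {g | ∃ u v, (A u = A v ∧ ¬ Conn A u v) ∧ g = bin k u v} := by
  ext g
  constructor
  · rintro ⟨S, hS, hg⟩
    obtain ⟨u, v, rfl⟩ := hS.binom g hg
    exact ⟨u, v, not_conn_of_mem hW hS hg, rfl⟩
  · rintro ⟨u, v, ⟨h1, h2⟩, rfl⟩
    exact mem_markov hW h1 h2

end

end X232.GR
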