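import Mathlib

set_option autoImplicit false

/-! Constructions of monomial orders: pull back along an injective monotone map, refinement of a
weight, restriction to a subset of the variables, elimination orders. -/

namespace X232.GR

noncomputable section

open scoped MonomialOrder

variable {σ : Type}

/-- monomial order from an injective monotone additive map to a well-ordered monoid -/
def ofInj {P : Type} [AddCommMonoid P] [LinearOrder P] [IsOrderedAddMonoid P] [WellFoundedLT P]
    (J : (σ →₀ ℕ) →+ P) (hinj : Function.Injective J) (hmono : Monotone J) :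
    MonomialOrder.{0, 0} σ where
  syn := AddMonoidHom.mrange J
  addCommMonoidSyn := inferInstance
  linearOrderSyn := inferInstance
  isOrderedAddMonoid_syn :=
    { add_le_add_left := fun a b h c => by
        show (a : P) + c ≤ (b : P) + c
        exact add_le_add_left h _ }
  toSyn :=
    { Equiv.ofBijective (fun u => (⟨J u, u, rfl⟩ : AddMonoidHom.mrange J))
        ⟨fun a b h => hinj (congrArg Subtype.val h), fun ⟨x, y, hy⟩ => ⟨y, Subtype.ext hy⟩⟩ with
      map_add' := fun a b => Subtype.ext (map_add J a b) }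
  toSyn_monotone := fun a b h => hmono h
  wellFoundedLT_syn := ⟨InvImage.wf (fun x : AddMonoidHom.mrange J => (x : P)) wellFounded_lt⟩

theorem ofInj_le {P : Type} [AddCommMonoid P] [LinearOrder P] [IsOrderedAddMonoid P]
    [WellFoundedLT P] (J : (σ →₀ ℕ) →+ P) (hinj : Function.Injective J) (hmono : Monotone J)
    (u v : σ →₀ ℕ) : (u ≼[ofInj J hinj hmono] v) ↔ J u ≤ J v := Iff.rfl

theorem addHom_mono {P : Type} [AddCommMonoid P] [LinearOrder P] [IsOrderedAddMonoid P]
    (L : (σ →₀ ℕ) →+ P) (h0 : ∀ u, 0 ≤ L u) : Monotone L := by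
  intro a b hab
  obtain ⟨c, rfl⟩ := exists_add_of_le hab
  rw [map_add]
  exact le_add_of_nonneg_right (h0 c)

/-- pairing of two homs in the lexicographic product -/
def pairHom {P P' : Type} [AddCommMonoid P] [AddCommMonoid P'] (L : (σ →₀ ℕ) →+ P)
    (L' : (σ →₀ ℕ) →+ P') : (σ →₀ ℕ) →+ P ×ₗ P' where
  toFun u := toLex (L u, L' u)
  map_zero' := by
    show toLex (L 0, L' 0) = 0
    rw [map_zero, map_zero]; rfl
  map_add' u v := by
    rw [map_add, map_add]; rfl

/-- refinement of the weight `L` by the monomial order `m` -/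
def refine (L : (σ →₀ ℕ) →+ ℕ) (m : MonomialOrder.{0, 0} σ) : MonomialOrder.{0, 0} σ :=
  ofInj (pairHom L m.toSyn.toAddMonoidHom) (by
    intro a b hab
    have : m.toSyn a = m.toSyn b := (Prod.ext_iff.1 (toLex.injective hab)).2
    exact m.toSyn.injective this) (by
    intro a b hab
    show toLex (L a, m.toSyn a) ≤ toLex (L b, m.toSyn b)
    rw [Prod.Lex.toLex_le_toLex]
    rcases (addHom_mono L (fun _ => Nat.zero_le _) hab).lt_or_eq with h | h
    · exact Or.inl h
    · exact Or.inr ⟨h, m.toSyn_monotone hab⟩)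

theorem refine_le (L : (σ →₀ ℕ) →+ ℕ) (m : MonomialOrder.{0, 0} σ) (u v : σ →₀ ℕ) :
    (u ≼[refine L m] v) ↔ L u < L v ∨ L u = L v ∧ u ≼[m] v := by
  show toLex (L u, m.toSyn u) ≤ toLex (L v, m.toSyn v) ↔ _
  rw [Prod.Lex.toLex_le_toLex]

variable {S : Set σ}

/-- extension of exponents by zero -/
def emb (S : Set σ) : (S →₀ ℕ) →+ (σ →₀ ℕ) := Finsupp.mapDomain.addMonoidHom (Subtype.val)

/-- restriction of exponents -/
def res (S : Set σ) : (σ →₀ ℕ) →+ (S →₀ ℕ) := Finsupp.subtypeDomainAddMonoidHom (p := fun i => i ∈ S)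

theorem res_apply (u : σ →₀ ℕ) (i : S) : res S u i = u i := rfl

theorem emb_apply (u : S →₀ ℕ) (i : S) : emb S u i = u i :=
  Finsupp.mapDomain_apply Subtype.val_injective u i

theorem emb_apply_not_mem (u : S →₀ ℕ) {i : σ} (hi : i ∉ S) : emb S u i = 0 :=
  Finsupp.mapDomain_of_notMem_range u i (by
    rintro ⟨j, rfl⟩
    exact hi j.2)

theorem res_emb (u : S →₀ ℕ) : res S (emb S u) = u := by
  ext i
  rw [res_apply, emb_apply]

theorem emb_injective : Function.Injective (emb S) := fun a b h => by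
  rw [← res_emb a, ← res_emb b, h]

theorem emb_res {u : σ →₀ ℕ} (h : ∀ i, i ∉ S → u i = 0) : emb S (res S u) = u := by
  ext i
  by_cases hi : i ∈ S
  · exact emb_apply (res S u) ⟨i, hi⟩
  · rw [emb_apply_not_mem _ hi, h i hi]

theorem emb_mono : Monotone (emb S) := by
  intro a b hab
  obtain ⟨c, rfl⟩ := exists_add_of_le hab
  rw [map_add]
  exact le_self_add

theorem res_mono : Monotone (res S) := by
  intro a b hab
  obtain ⟨c, rfl⟩ := exists_add_of_le hab
  rw [map_add]
  exact le_self_add

/-- restriction of a monomial order to a subset of the variables -/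
def restr (S : Set σ) (m : MonomialOrder.{0, 0} σ) : MonomialOrder.{0, 0} S :=
  ofInj (m.toSyn.toAddMonoidHom.comp (emb S)) (m.toSyn.injective.comp emb_injective)
    (m.toSyn_monotone.comp emb_mono)

theorem restr_le (m : MonomialOrder.{0, 0} σ) (u v : S →₀ ℕ) :
    (u ≼[restr S m] v) ↔ (emb S u ≼[m] emb S v) := Iff.rfl

/-- the degree in the variables outside `S` -/
def degOut [Finite σ] (S : Set σ) : (σ →₀ ℕ) →+ ℕ := by
  classical
  exact
  let _ := Fintype.ofFinite σ
  { toFun := fun u => ∑ i, if i ∈ S then 0 else u i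
    map_zero' := by simp
    map_add' := fun u v => by
      rw [← Finset.sum_add_distrib]
      refine Finset.sum_congr rfl fun i _ => ?_
      split_ifs <;> simp }

theorem degOut_eq_zero [Finite σ] {S : Set σ} {u : σ →₀ ℕ} :
    degOut S u = 0 ↔ ∀ i, i ∉ S → u i = 0 := by
  classical
  let _ := Fintype.ofFinite σ
  show (∑ i, if i ∈ S then 0 else u i) = 0 ↔ _
  rw [Finset.sum_eq_zero_iff]
  constructor
  · intro h i hi
    have := h i (Finset.mem_univ i)
    rwa [if_neg hi] at this
  · intro h i _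
    split_ifs with hi
    · rfl
    · exact h i hi

/-- some monomial order -/
theorem exists_order [Finite σ] : ∃ _ : MonomialOrder.{0, 0} σ, True := by
  classical
  let _ : LinearOrder σ := linearOrderOfSTO (WellOrderingRel (α := σ))
  exact ⟨MonomialOrder.lex, trivial⟩

/-- an order in which the monomials in the variables of `S` are smaller than the other ones -/
theorem exists_small [Finite σ] (S : Set σ) : ∃ m : MonomialOrder.{0, 0} σ,
    ∀ u v : σ →₀ ℕ, (∀ i, i ∉ S → u i = 0) → ¬ (∀ i, i ∉ S → v i = 0) → (u ≺[m] v) := by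
  obtain ⟨m, _⟩ := exists_order (σ := σ)
  refine ⟨refine (degOut S) m, fun u v hu hv => ?_⟩
  rw [← not_le, refine_le]
  have h1 := degOut_eq_zero.2 hu
  have h2 : degOut S v ≠ 0 := fun h => hv (degOut_eq_zero.1 h)
  omega

/-- an elimination order extending a given order on the variables of `S` -/
theorem exists_elim [Finite σ] (S : Set σ) (mS : MonomialOrder.{0, 0} S) :
    ∃ m : MonomialOrder.{0, 0} σ,
      (∀ u v : S →₀ ℕ, (emb S u ≼[m] emb S v) ↔ (u ≼[mS] v)) ∧
      ∀ (u : S →₀ ℕ) (v : σ →₀ ℕ), ¬ (∀ i, i ∉ S → v i = 0) → (emb S u ≺[m] v) := by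
  obtain ⟨m₀, _⟩ := exists_order (σ := σ)
  let J : (σ →₀ ℕ) →+ mS.syn ×ₗ m₀.syn :=
    pairHom (mS.toSyn.toAddMonoidHom.comp (res S)) m₀.toSyn.toAddMonoidHom
  have hJi : Function.Injective J := by
    intro a b hab
    have : m₀.toSyn a = m₀.toSyn b := (Prod.ext_iff.1 (toLex.injective hab)).2
    exact m₀.toSyn.injective this
  have hJm : Monotone J := by
    intro a b hab
    show toLex (mS.toSyn (res S a), m₀.toSyn a) ≤ toLex (mS.toSyn (res S b), m₀.toSyn b)
    rw [Prod.Lex.toLex_le_toLex]
    rcases (mS.toSyn_monotone (res_mono hab)).lt_or_eq with h | h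
    · exact Or.inl h
    · exact Or.inr ⟨h, m₀.toSyn_monotone hab⟩
  refine ⟨refine (degOut S) (ofInj J hJi hJm), fun u v => ?_, fun u v hv => ?_⟩
  · rw [refine_le, degOut_eq_zero.2 (fun i hi => emb_apply_not_mem u hi),
      degOut_eq_zero.2 (fun i hi => emb_apply_not_mem v hi), ofInj_le]
    have h1 : (J (emb S u) ≤ J (emb S v)) ↔ (toLex (mS.toSyn u, m₀.toSyn (emb S u)) ≤
        toLex (mS.toSyn v, m₀.toSyn (emb S v))) := by
      show (toLex (mS.toSyn (res S (emb S u)), m₀.toSyn (emb S u)) ≤
        toLex (mS.toSyn (res S (emb S v)), m₀.toSyn (emb S v))) ↔ _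
      rw [res_emb, res_emb]
    rw [h1, Prod.Lex.toLex_le_toLex]
    constructor
    · rintro (h | ⟨_, h | h⟩)
      · omega
      · exact h.le
      · exact h.1.le
    · intro h
      refine Or.inr ⟨rfl, ?_⟩
      rcases h.lt_or_eq with h | h
      · exact Or.inl h
      · exact Or.inr ⟨h, by rw [mS.toSyn.injective h]⟩
  · rw [← not_le, refine_le]
    have h1 := degOut_eq_zero.2 (fun i hi => emb_apply_not_mem u hi)
    have h2 : degOut S v ≠ 0 := fun h => hv (degOut_eq_zero.1 h)
    omega

end

end X232.GR
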